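import Pool.Agent.Y5.F.Stm

/-!
Rescaling of the reduced system (task RESC of the project of helper5).
-/

open Set Filter Topology MeasureTheory

set_option autoImplicit false

namespace Pool.Agent.Y108.NS

open Pool.Agent.Y5.D Pool.Agent.Y5.E Pool.Agent.Y5.F

/-- rescaled functions -/
noncomputable def rs (κ : ℝ) (x : ℕ → ℝ → ℝ) : ℕ → ℝ → ℝ := fun n t => x n t / κ ^ n

section basic

variable {κ : ℝ} (hκ : 0 < κ)
include hκ

lemma Yk_eq (x w : ℕ → ℝ → ℝ) (m : ℕ) (t : ℝ) :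
    Yk κ (rs κ x) (rs κ w) m t = Yt x w m t / κ ^ (2 * m) := by
  unfold Yk Yt rs
  rw [← tsum_div_const]
  congr 1
  funext k
  have h1 : κ ^ (m + k) ≠ 0 := (pow_pos hκ _).ne'
  have h2 : κ ^ (2 * m) ≠ 0 := (pow_pos hκ _).ne'
  rw [eq_div_iff h2, div_pow, div_pow, ← add_div, mul_div_assoc', div_mul_eq_mul_div,
    div_eq_iff (pow_ne_zero _ h1)]
  ring

lemma Wk_eq (w : ℕ → ℝ → ℝ) (m : ℕ) (t : ℝ) :
    Wk κ (rs κ w) m t = Wt w m t / κ ^ (2 * m) := by
  unfold Wk Wt rs
  rw [← tsum_div_const]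
  congr 1
  funext k
  have h1 : κ ^ (m + k) ≠ 0 := (pow_pos hκ _).ne'
  have h2 : κ ^ (2 * m) ≠ 0 := (pow_pos hκ _).ne'
  rw [eq_div_iff h2, div_pow, mul_div_assoc', div_mul_eq_mul_div,
    div_eq_iff (pow_ne_zero _ h1)]
  ring

lemma sqY (x w : ℕ → ℝ → ℝ) (m : ℕ) (t : ℝ) :
    √(Yt x w m t) = κ ^ m * √(Yk κ (rs κ x) (rs κ w) m t) := by
  have h2 : 0 < κ ^ m := pow_pos hκ _
  rw [Yk_eq hκ, mul_comm 2 m, pow_mul, Real.sqrt_div' _ (by positivity), Real.sqrt_sq h2.le]
  field_simp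

lemma sqW (w : ℕ → ℝ → ℝ) (m : ℕ) (t : ℝ) :
    √(Wt w m t) = κ ^ m * √(Wk κ (rs κ w) m t) := by
  have h2 : 0 < κ ^ m := pow_pos hκ _
  rw [Wk_eq hκ, mul_comm 2 m, pow_mul, Real.sqrt_div' _ (by positivity), Real.sqrt_sq h2.le]
  field_simp

lemma Uw_eq (L : ℕ → ℝ) (w : ℕ → ℝ → ℝ) (m : ℕ) (t : ℝ) :
    Uw (fun n => κ ^ n * L n) (rs κ w) m t = Uw L w m t := by
  unfold Uw rs
  refine Finset.sum_congr rfl fun p _ => ?_
  have h1 : κ ^ p ≠ 0 := (pow_pos hκ _).ne'
  field_simp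

lemma abs_rs (x : ℕ → ℝ → ℝ) (n : ℕ) (t : ℝ) : |rs κ x n t| = |x n t| / κ ^ n := by
  unfold rs
  rw [abs_div, abs_of_pos (pow_pos hκ n)]

lemma Ut_eq (L : ℕ → ℝ) (x : ℕ → ℝ → ℝ) (m : ℕ) (t : ℝ) :
    Ut (fun n => κ ^ n * L n) (rs κ x) m t = Ut L x m t := by
  unfold Ut
  refine Finset.sum_congr rfl fun p _ => ?_
  have h1 : κ ^ p ≠ 0 := (pow_pos hκ _).ne'
  rw [abs_rs hκ]
  field_simp

lemma Aq_le {q σ : ℝ} (hq0 : 0 ≤ q) (hq : q ≤ κ * σ) {x w : ℕ → ℝ → ℝ} {t : ℝ}
    (hw : ∀ p, 0 ≤ w p t) (n : ℕ) :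
    κ * Aq q x w n t ≤
      κ ^ n * ∑ p ∈ Finset.range n, σ ^ (n - 1 - p) * (|rs κ x p t| + rs κ w p t) := by
  unfold Aq
  rw [Finset.mul_sum, Finset.mul_sum]
  refine Finset.sum_le_sum fun p hp => ?_
  rw [Finset.mem_range] at hp
  rw [abs_rs hκ]
  unfold rs
  obtain ⟨k, hk⟩ : ∃ k, n = k + p + 1 := ⟨n - 1 - p, by omega⟩
  have e1 : n - 1 - p = k := by omega
  rw [e1, hk]
  have h1 : κ ^ p ≠ 0 := (pow_pos hκ _).ne'
  have e2 : κ ^ (k + p + 1) * (σ ^ k * (|x p t| / κ ^ p + w p t / κ ^ p)) =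
      κ * ((κ * σ) ^ k * (|x p t| + w p t)) := by
    rw [mul_pow, pow_add, pow_add]
    field_simp
  rw [e2]
  have h3 : 0 ≤ |x p t| + w p t := add_nonneg (abs_nonneg _) (hw p)
  exact mul_le_mul_of_nonneg_left
    (mul_le_mul_of_nonneg_right (pow_le_pow_left₀ hq0 hq k) h3) hκ.le

lemma Awq_le {q σ : ℝ} (hq0 : 0 ≤ q) (hq : q ≤ κ * σ) {w : ℕ → ℝ → ℝ} {t : ℝ}
    (hw : ∀ p, 0 ≤ w p t) (n : ℕ) :
    κ * Awq q w n t ≤
      κ ^ n * ∑ p ∈ Finset.range n, σ ^ (n - 1 - p) * rs κ w p t := by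
  unfold Awq
  rw [Finset.mul_sum, Finset.mul_sum]
  refine Finset.sum_le_sum fun p hp => ?_
  rw [Finset.mem_range] at hp
  unfold rs
  obtain ⟨k, hk⟩ : ∃ k, n = k + p + 1 := ⟨n - 1 - p, by omega⟩
  have e1 : n - 1 - p = k := by omega
  rw [e1, hk]
  have h1 : κ ^ p ≠ 0 := (pow_pos hκ _).ne'
  have e2 : κ ^ (k + p + 1) * (σ ^ k * (w p t / κ ^ p)) =
      κ * ((κ * σ) ^ k * (w p t)) := by
    rw [mul_pow, pow_add, pow_add]
    field_simp
  rw [e2]
  exact mul_le_mul_of_nonneg_left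
    (mul_le_mul_of_nonneg_right (pow_le_pow_left₀ hq0 hq k) (hw p)) hκ.le

lemma loc_le (hκ1 : κ ≤ 1) {L : ℕ → ℝ} (hL : ∀ n, 0 < L n) {x w : ℕ → ℝ → ℝ} {t : ℝ}
    (hw : ∀ p, 0 ≤ w p t) (m : ℕ) :
    κ ^ 3 * loc L x w m t ≤ κ ^ m * loc (fun n => κ ^ n * L n) (rs κ x) (rs κ w) m t := by
  unfold loc
  rcases m with _ | _ | m
  · simp
  · have h0 := hL 0
    have h1 := hw 0
    have h2 : κ ^ 3 ≤ κ := by
      have : κ ^ 3 ≤ κ ^ 1 := pow_le_pow_of_le_one hκ.le hκ1 (by norm_num)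
      simpa using this
    have h3 : 0 ≤ |x 0 t| := abs_nonneg _
    have h4 : 0 ≤ L 0 * ((|x 0 t| + w 0 t + |x 0 t| + w 0 t) * (w 0 t + w 0 t)) := by positivity
    simp only [zero_add, one_ne_zero, if_false, rs,
      pow_zero, div_one, one_mul, pow_one, show 1 - 2 = 0 from rfl]
    exact mul_le_mul_of_nonneg_right h2 h4
  · have e1 : m + 1 + 1 - 1 = m + 1 := by omega
    have e2 : m + 1 + 1 - 2 = m := by omega
    rw [if_neg (by omega), if_neg (by omega), e1, e2]
    simp only [abs_rs hκ]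
    unfold rs
    have h0 := (hL (m + 1)).le
    have k1 : 0 < κ ^ m := pow_pos hκ _
    have k2 : 0 < κ ^ (m + 1) := pow_pos hκ _
    have k3 : κ ^ (m + 1) ≤ κ ^ m := pow_le_pow_of_le_one hκ.le hκ1 (by omega)
    have dl : ∀ a : ℝ, 0 ≤ a → a / κ ^ m ≤ a / κ ^ (m + 1) := fun a ha =>
      div_le_div_of_nonneg_left ha k2 k3
    set a := |x (m + 1) t| with ha
    set b := w (m + 1) t with hb
    set c := |x m t| with hc
    set d := w m t with hd
    have a0 : 0 ≤ a := abs_nonneg _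
    have c0 : 0 ≤ c := abs_nonneg _
    have b0 : 0 ≤ b := hw _
    have d0 : 0 ≤ d := hw _
    have h5 : (a + b + c + d) / κ ^ m ≤
        a / κ ^ (m + 1) + b / κ ^ (m + 1) + c / κ ^ m + d / κ ^ m := by
      rw [add_div, add_div, add_div]
      linarith [dl a a0, dl b b0]
    have h6 : (b + d) / κ ^ m ≤ b / κ ^ (m + 1) + d / κ ^ m := by
      rw [add_div]
      linarith [dl b b0]
    have h7 : (a + b + c + d) / κ ^ m * ((b + d) / κ ^ m) ≤
        (a / κ ^ (m + 1) + b / κ ^ (m + 1) + c / κ ^ m + d / κ ^ m) *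
          (b / κ ^ (m + 1) + d / κ ^ m) :=
      mul_le_mul h5 h6 (by positivity) (by positivity)
    have e3 : κ ^ 3 * (L (m + 1) * ((a + b + c + d) * (b + d))) =
        κ ^ (m + 1 + 1) * (κ ^ (m + 1) * L (m + 1) *
          ((a + b + c + d) / κ ^ m * ((b + d) / κ ^ m))) := by
      field_simp
      ring
    rw [e3]
    exact mul_le_mul_of_nonneg_left
      (mul_le_mul_of_nonneg_left h7 (by positivity)) (by positivity)

end basic

/-- absorption of the powers of `κ` -/
lemma absorb {κ lam A B : ℝ} (h : 1 ≤ κ ^ 3 * lam ^ 3) (hl : 0 ≤ lam) (hA : 0 ≤ A)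
    (h1 : κ ^ 3 * A ≤ B) : A ≤ lam ^ 3 * B := by
  calc A ≤ κ ^ 3 * lam ^ 3 * A := by nlinarith
    _ = lam ^ 3 * (κ ^ 3 * A) := by ring
    _ ≤ lam ^ 3 * B := mul_le_mul_of_nonneg_left h1 (by positivity)

lemma vf_eq {κ : ℝ} (hκ : 0 < κ) (L C ℓ : ℕ → ℝ) (B : ℕ → ℕ → ℝ) (x : ℕ → ℝ → ℝ) (n : ℕ)
    (t : ℝ) :
    vfk κ (fun n => κ ^ n * L n) (fun n => C n / κ) ℓ B (fun m => rs κ x m t) n =
      vf3 L C ℓ B (fun m => x m t) n / κ ^ n := by
  have hn : κ ^ n ≠ 0 := (pow_pos hκ _).ne'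
  have hk : κ ≠ 0 := hκ.ne'
  unfold vfk vf3 rs
  have e1 : (if n = 0 then (0 : ℝ) else κ ^ (n - 1) * L (n - 1) * (C (n - 1) / κ) *
      (x (n - 1) t / κ ^ (n - 1)) ^ 2) =
      (if n = 0 then 0 else L (n - 1) * C (n - 1) * x (n - 1) t ^ 2) / κ ^ n := by
    rcases n with _ | n
    · simp
    · rw [if_neg (by omega), if_neg (by omega), Nat.add_sub_cancel]
      have h1 : κ ^ n ≠ 0 := (pow_pos hκ _).ne'
      field_simp
      ring
  have e2 : κ ^ 2 * (κ ^ n * L n * (C n / κ) * (x n t / κ ^ n) * (x (n + 1) t / κ ^ (n + 1))) =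
      L n * C n * x n t * x (n + 1) t / κ ^ n := by
    rw [pow_succ κ n]
    field_simp
  have e3 : ∑ i ∈ Finset.range n, κ ^ i * L i * B i n * (x i t / κ ^ i) =
      ∑ i ∈ Finset.range n, L i * B i n * x i t := by
    refine Finset.sum_congr rfl fun i _ => ?_
    have h1 : κ ^ i ≠ 0 := (pow_pos hκ _).ne'
    field_simp
  have e4 : ∑' m : ℕ, B n (n + 1 + m) * (κ ^ (2 * (m + 1)) *
      (x (n + 1 + m) t / κ ^ (n + 1 + m)) ^ 2) =
      (∑' m : ℕ, B n (n + 1 + m) * x (n + 1 + m) t ^ 2) / κ ^ (2 * n) := by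
    rw [← tsum_div_const]
    congr 1
    funext m
    have h1 : κ ^ (n + 1 + m) ≠ 0 := (pow_pos hκ _).ne'
    have h2 : κ ^ (2 * n) ≠ 0 := (pow_pos hκ _).ne'
    rw [eq_div_iff h2, div_pow, mul_div_assoc', mul_div_assoc', div_mul_eq_mul_div,
      div_eq_iff (pow_ne_zero _ h1)]
    ring
  simp only at e1 e2 e3 e4 ⊢
  rw [e1, e2, e3, e4, mul_comm 2 n, pow_mul]
  field_simp

theorem t_RESC : S_RESC := by
  intro κ μ lam Λ M L C ℓ B h
  have hκ := h.κ0
  have hκ1 := h.κ1
  have hμb := h.μ_big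
  have hμ1 : 1 ≤ μ := le_trans (by norm_num) hμb
  have hμ0 : 0 < μ := by linarith
  have hlam0 : 0 < lam := by
    have := h.μ_eq
    by_contra hc
    have : κ * lam ≤ 0 := mul_nonpos_of_nonneg_of_nonpos hκ.le (not_lt.1 hc)
    linarith [h.μ_eq]
  have hlamμ : μ ≤ lam := by
    rw [h.μ_eq]
    nlinarith
  have hlam1 : 1 ≤ lam := hμ1.trans hlamμ
  have hκl : 1 ≤ κ ^ 3 * lam ^ 3 := by
    rw [← mul_pow, ← h.μ_eq]
    exact one_le_pow₀ hμ1
  have hL : ∀ n, 0 < L n := by
    intro n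
    induction n with
    | zero => linarith [h.L0]
    | succ n ih => rw [h.L_succ]; positivity
  have hM : 1 ≤ M := h.M_one
  set N0 := 10 ^ 6 * M ^ 4 with hN0
  have hN01 : 1 ≤ N0 := by
    have : 1 ≤ M ^ 4 := one_le_pow₀ hM
    rw [hN0]; linarith
  have hl3 : 1 ≤ lam ^ 3 := one_le_pow₀ hlam1
  have hN' : 1 ≤ N0 * lam ^ 3 := one_le_mul_of_one_le_of_one_le hN01 hl3
  set q := Λ / lam with hq
  have hq0 : 0 ≤ q := div_nonneg (by linarith [h.Λ_ge]) hlam0.le
  have hσ : q ≤ κ * (√μ)⁻¹ := by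
    have h1 : Λ ≤ √μ := Real.le_sqrt_of_sq_le h.Λ_sq
    have h2 : lam = μ / κ := by rw [h.μ_eq]; field_simp
    have h3 : 0 < √μ := Real.sqrt_pos.2 hμ0
    rw [hq, h2, div_div_eq_mul_div, div_le_iff₀ hμ0]
    have h4 : κ * (√μ)⁻¹ * μ = κ * √μ := by
      have : μ = √μ * √μ := (Real.mul_self_sqrt hμ0.le).symm
      nth_rewrite 2 [this]
      field_simp
    rw [h4, mul_comm]
    exact mul_le_mul_of_nonneg_left h1 hκ.le
  have hμσ : ∀ n, κ ^ (n + 1) * L (n + 1) = μ * (κ ^ n * L n) := by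
    intro n
    rw [h.L_succ, h.μ_eq]
    ring
  refine ⟨?_, ?_⟩
  · refine ⟨hκ, hκ1, ?_, hμb, by simpa using h.L0, hμσ, hN', ?_, ?_, ?_, h.B_lo, h.B_hi,
      h.ℓ_nonneg, by simpa using h.ℓ_zero, h.ℓ_succ⟩
    · have e : κ * (N0 * lam ^ 3) = N0 * lam ^ 2 * μ := by rw [h.μ_eq]; ring
      rw [e]
      exact one_le_mul_of_one_le_of_one_le
        (one_le_mul_of_one_le_of_one_le hN01 (one_le_pow₀ hlam1)) hμ1
    · have h1 := h.exp_big
      have h2 : Real.exp (μ / 10 ^ 6) = Real.exp (μ / 10 ^ 7) ^ 10 := by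
        rw [← Real.exp_nat_mul]
        congr 1
        push_cast
        ring
      rw [h2] at h1
      exact le_of_pow_le_pow_left₀ (by norm_num) (Real.exp_pos _).le h1
    · intro n
      show Real.exp (-(301 / 10000) * μ) ≤ C n / κ
      rw [le_div_iff₀ hκ]
      have := h.C_lo n
      rw [mul_comm, neg_mul]
      exact this
    · intro n
      show C n / κ ≤ Real.exp (-(299 / 10000) * μ)
      rw [div_le_iff₀ hκ]
      have := h.C_hi n
      rw [mul_comm, neg_mul]
      exact this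
  · intro T x w f hT hS
    change SysK κ μ (N0 * lam ^ 3) (fun n => κ ^ n * L n) (fun n => C n / κ) ℓ B T
        (rs κ x) (rs κ w) (rs κ f) ∧
      (∀ m, ∀ t ∈ Ico 0 T, √(Yt x w m t) = κ ^ m * √(Yk κ (rs κ x) (rs κ w) m t)) ∧
      (GrowK κ μ T (rs κ x) (rs κ w) → Grow4 κ μ T x w)
    have hY0 : ∀ m t, Yk κ (rs κ x) (rs κ w) m t = Yt x w m t / κ ^ (2 * m) := Yk_eq hκ x w
    have hw0 : ∀ n, ∀ t ∈ Ico 0 T, 0 ≤ rs κ w n t := fun n t ht =>
      div_nonneg (hS.w0 n t ht) (pow_pos hκ n).le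
    have hrs : ∀ (y : ℕ → ℝ → ℝ) n t, y n t = κ ^ n * rs κ y n t := by
      intro y n t
      unfold rs
      field_simp
    -- the sums
    have hA : ∀ n, ∀ t ∈ Ico 0 T, κ * Aq q x w n t ≤ κ ^ n * At μ (rs κ x) (rs κ w) n t :=
      fun n t ht => Aq_le hκ hq0 hσ (fun p => hS.w0 p t ht) n
    have hAw : ∀ n, ∀ t ∈ Ico 0 T, κ * Awq q w n t ≤ κ ^ n * Aw μ (rs κ w) n t :=
      fun n t ht => Awq_le hκ hq0 hσ (fun p => hS.w0 p t ht) n
    have hA0 : ∀ n, ∀ t ∈ Ico 0 T, 0 ≤ Aq q x w n t := fun n t ht =>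
      Finset.sum_nonneg fun p _ => mul_nonneg (pow_nonneg hq0 _)
        (add_nonneg (abs_nonneg _) (hS.w0 p t ht))
    have hAw0 : ∀ n, ∀ t ∈ Ico 0 T, 0 ≤ Awq q w n t := fun n t ht =>
      Finset.sum_nonneg fun p _ => mul_nonneg (pow_nonneg hq0 _) (hS.w0 p t ht)
    have hAt0 : ∀ n, ∀ t ∈ Ico 0 T, 0 ≤ At μ (rs κ x) (rs κ w) n t := fun n t ht =>
      Finset.sum_nonneg fun p _ => mul_nonneg (by positivity)
        (add_nonneg (abs_nonneg _) (hw0 p t ht))
    have hlocle : ∀ n, ∀ t ∈ Ico 0 T, κ ^ 3 * loc L x w n t ≤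
        κ ^ n * loc (fun n => κ ^ n * L n) (rs κ x) (rs κ w) n t :=
      fun n t ht => loc_le hκ hκ1 hL (fun p => hS.w0 p t ht) n
    have hloc0 : ∀ n, ∀ t ∈ Ico 0 T, 0 ≤ loc L x w n t := by
      intro n t ht
      unfold loc
      split_ifs
      · exact le_rfl
      · have h1 := hS.w0 (n - 1) t ht
        have h2 := hS.w0 (n - 2) t ht
        have h3 := (hL (n - 1)).le
        positivity
    have hUw0 : ∀ n, ∀ t ∈ Ico 0 T, 0 ≤ Uw L w n t := fun n t ht =>
      Finset.sum_nonneg fun p _ => mul_nonneg (hL p).le (hS.w0 p t ht)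
    have hk3 : κ ^ 3 ≤ 1 := pow_le_one₀ hκ.le hκ1
    have hk2 : κ ^ 2 ≤ 1 := pow_le_one₀ hκ.le hκ1
    have hk3' : κ ^ 3 ≤ κ := by
      have : κ ^ 3 ≤ κ ^ 1 := pow_le_pow_of_le_one hκ.le hκ1 (by norm_num)
      simpa using this
    -- the two basic products
    have hAY : ∀ n, ∀ t ∈ Ico 0 T, ∀ v : ℝ, 0 ≤ v →
        κ ^ 3 * (L n * (Aq q x w n t + √(Yt x w n t)) * (κ ^ n * v)) ≤
        κ ^ n * (κ ^ n * L n * (At μ (rs κ x) (rs κ w) n t +
          √(Yk κ (rs κ x) (rs κ w) n t)) * v) := by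
      intro n t ht v hv
      rw [sqY hκ x w n t]
      have a1 := hA n t ht
      have a2 := hA0 n t ht
      have a3 : 0 ≤ √(Yk κ (rs κ x) (rs κ w) n t) := Real.sqrt_nonneg _
      have hn : 0 < κ ^ n := pow_pos hκ n
      have hLn := hL n
      have a4 : κ ^ 3 * (Aq q x w n t + κ ^ n * √(Yk κ (rs κ x) (rs κ w) n t)) ≤
          κ ^ n * (At μ (rs κ x) (rs κ w) n t + √(Yk κ (rs κ x) (rs κ w) n t)) := by
        have b1 : κ ^ 3 * Aq q x w n t ≤ κ ^ n * At μ (rs κ x) (rs κ w) n t :=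
          (mul_le_mul_of_nonneg_right hk3' a2).trans a1
        have b2 : κ ^ 3 * (κ ^ n * √(Yk κ (rs κ x) (rs κ w) n t)) ≤
            κ ^ n * √(Yk κ (rs κ x) (rs κ w) n t) :=
          mul_le_of_le_one_left (by positivity) hk3
        linarith
      calc κ ^ 3 * (L n * (Aq q x w n t + κ ^ n * √(Yk κ (rs κ x) (rs κ w) n t)) * (κ ^ n * v))
          = (κ ^ 3 * (Aq q x w n t + κ ^ n * √(Yk κ (rs κ x) (rs κ w) n t))) *
            (L n * (κ ^ n * v)) := by ring
        _ ≤ (κ ^ n * (At μ (rs κ x) (rs κ w) n t + √(Yk κ (rs κ x) (rs κ w) n t))) *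
            (L n * (κ ^ n * v)) := mul_le_mul_of_nonneg_right a4 (by positivity)
        _ = _ := by ring
    refine ⟨⟨?_, ?_, hw0, ?_, ?_, ?_, ?_, ?_, ?_, ?_, ?_⟩, fun m t _ => sqY hκ x w m t, ?_⟩
    · -- dx
      intro n t ht
      have h1 := (hS.dx n t ht).div_const (κ ^ n)
      rw [vf_eq hκ]
      have e : vf3 L C ℓ B (fun m => x m t) n / κ ^ n + rs κ f n t =
          (vf3 L C ℓ B (fun m => x m t) n + f n t) / κ ^ n := by
        unfold rs
        rw [add_div]
      rw [e]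
      exact h1
    · -- fb
      intro n t ht
      have h1 := hS.fb n t ht
      have hn : 0 < κ ^ n := pow_pos hκ n
      rw [abs_rs hκ, div_le_iff₀ hn]
      set T1 := L n * (Aq q x w n t + √(Yt x w n t)) * √(Wt w n t) with hT1
      set T2 := Uw L w n t * √(Yt x w n t) with hT2
      set T3 := L n * Awq q w n t * √(Yt x w (n + 1) t) with hT3
      set T4 := loc L x w n t with hT4
      have t1 : κ ^ 3 * T1 ≤ κ ^ n * (κ ^ n * L n * (At μ (rs κ x) (rs κ w) n t +
          √(Yk κ (rs κ x) (rs κ w) n t)) * √(Wk κ (rs κ w) n t)) := by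
        have := hAY n t ht (√(Wk κ (rs κ w) n t)) (Real.sqrt_nonneg _)
        rw [← sqW hκ] at this
        exact this
      have t2 : κ ^ 3 * T2 ≤ κ ^ n * (Uw (fun n => κ ^ n * L n) (rs κ w) n t *
          √(Yk κ (rs κ x) (rs κ w) n t)) := by
        rw [Uw_eq hκ, hT2, sqY hκ x w n t]
        have b1 := hUw0 n t ht
        have b2 : 0 ≤ √(Yk κ (rs κ x) (rs κ w) n t) := Real.sqrt_nonneg _
        calc κ ^ 3 * (Uw L w n t * (κ ^ n * √(Yk κ (rs κ x) (rs κ w) n t))) ≤
            Uw L w n t * (κ ^ n * √(Yk κ (rs κ x) (rs κ w) n t)) :=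
              mul_le_of_le_one_left (by positivity) hk3
          _ = _ := by ring
      have t3 : κ ^ 3 * T3 ≤ κ ^ n * (κ ^ n * L n * Aw μ (rs κ w) n t *
          √(Yk κ (rs κ x) (rs κ w) (n + 1) t)) := by
        rw [hT3, sqY hκ x w (n + 1) t]
        have b1 := hAw0 n t ht
        have b2 : 0 ≤ √(Yk κ (rs κ x) (rs κ w) (n + 1) t) := Real.sqrt_nonneg _
        have b3 := hAw n t ht
        have hLn := hL n
        have b4 : 0 ≤ κ * Awq q w n t * (L n * κ ^ n * √(Yk κ (rs κ x) (rs κ w) (n + 1) t)) := by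
          positivity
        calc κ ^ 3 * (L n * Awq q w n t * (κ ^ (n + 1) * √(Yk κ (rs κ x) (rs κ w) (n + 1) t)))
            = κ ^ 3 * (κ * Awq q w n t *
              (L n * κ ^ n * √(Yk κ (rs κ x) (rs κ w) (n + 1) t))) := by
              rw [pow_succ κ n]; ring
          _ ≤ κ * Awq q w n t * (L n * κ ^ n * √(Yk κ (rs κ x) (rs κ w) (n + 1) t)) :=
              mul_le_of_le_one_left b4 hk3
          _ ≤ κ ^ n * Aw μ (rs κ w) n t *
              (L n * κ ^ n * √(Yk κ (rs κ x) (rs κ w) (n + 1) t)) :=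
              mul_le_mul_of_nonneg_right b3 (by positivity)
          _ = _ := by ring
      have t4 := hlocle n t ht
      have hT1' : 0 ≤ T1 := by
        have := hA0 n t ht
        have := (hL n).le
        positivity
      have hT2' : 0 ≤ T2 := mul_nonneg (hUw0 n t ht) (Real.sqrt_nonneg _)
      have hT3' : 0 ≤ T3 := mul_nonneg (mul_nonneg (hL n).le (hAw0 n t ht)) (Real.sqrt_nonneg _)
      have hT4' : 0 ≤ T4 := hloc0 n t ht
      set E1 := κ ^ n * L n * (At μ (rs κ x) (rs κ w) n t +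
          √(Yk κ (rs κ x) (rs κ w) n t)) * √(Wk κ (rs κ w) n t) with hE1
      set E2 := Uw (fun n => κ ^ n * L n) (rs κ w) n t * √(Yk κ (rs κ x) (rs κ w) n t) with hE2
      set E3 := κ ^ n * L n * Aw μ (rs κ w) n t * √(Yk κ (rs κ x) (rs κ w) (n + 1) t) with hE3
      set E4 := loc (fun n => κ ^ n * L n) (rs κ x) (rs κ w) n t with hE4
      have tt : κ ^ 3 * (T1 + T2 + T3 + T4) ≤ κ ^ n * (E1 + E2 + E3 + E4) := by
        calc κ ^ 3 * (T1 + T2 + T3 + T4) = κ ^ 3 * T1 + κ ^ 3 * T2 + κ ^ 3 * T3 + κ ^ 3 * T4 := by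
              ring
          _ ≤ κ ^ n * E1 + κ ^ n * E2 + κ ^ n * E3 + κ ^ n * E4 :=
              add_le_add (add_le_add (add_le_add t1 t2) t3) t4
          _ = _ := by ring
      have key := absorb hκl hlam0.le (by positivity) tt
      calc |f n t| ≤ N0 * (T1 + T2 + T3 + T4) := h1
        _ ≤ N0 * (lam ^ 3 * (κ ^ n * (E1 + E2 + E3 + E4))) :=
            mul_le_mul_of_nonneg_left key (by linarith)
        _ = _ := by ring
    · -- dw
      intro n t ht
      obtain ⟨D, h1, h2⟩ := hS.dw n t ht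
      have hn : 0 < κ ^ n := pow_pos hκ n
      refine ⟨D / (κ ^ n) ^ 2, ?_, ?_⟩
      · have h3 := h1.div_const ((κ ^ n) ^ 2)
        have e : (fun τ => rs κ w n τ ^ 2) = fun τ => w n τ ^ 2 / (κ ^ n) ^ 2 := by
          funext τ
          unfold rs
          rw [div_pow]
        rw [e]
        exact h3
      · rw [div_le_iff₀ (by positivity)]
        have hwt := hS.w0 n t ht
        set U1 := L n * (Aq q x w n t + √(Yt x w n t)) * √(Yt x w n t) with hU1
        set U2 := (if n = 0 then 0 else L (n - 1) * Aq q x w n t *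
          (|x (n - 1) t| + w (n - 1) t)) with hU2
        set E1 := κ ^ n * L n * (At μ (rs κ x) (rs κ w) n t +
          √(Yk κ (rs κ x) (rs κ w) n t)) * √(Yk κ (rs κ x) (rs κ w) n t) with hE1
        have hE2 : ∃ E2, E2 = (if n = 0 then (0 : ℝ) else κ ^ (n - 1) * L (n - 1) *
          At μ (rs κ x) (rs κ w) n t * (|rs κ x (n - 1) t| + rs κ w (n - 1) t)) := ⟨_, rfl⟩
        obtain ⟨E2, hE2⟩ := hE2
        show D ≤ (-(2 * Real.exp μ * (κ ^ n * L n) * rs κ w n t ^ 2) + 2 * rs κ w n t *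
          (N0 * lam ^ 3 * (E1 + (if n = 0 then (0 : ℝ) else κ ^ (n - 1) * L (n - 1) *
          At μ (rs κ x) (rs κ w) n t * (|rs κ x (n - 1) t| + rs κ w (n - 1) t))))) *
          (κ ^ n) ^ 2
        rw [← hE2]
        have hU1' : 0 ≤ U1 := by
          have := hA0 n t ht
          have := (hL n).le
          positivity
        have hU2' : 0 ≤ U2 := by
          rw [hU2]
          split_ifs
          · exact le_rfl
          · have := hA0 n t ht
            have := (hL (n - 1)).le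
            have := hS.w0 (n - 1) t ht
            positivity
        have u1 : κ ^ 3 * U1 ≤ κ ^ n * E1 := by
          have h3 := hAY n t ht (√(Yk κ (rs κ x) (rs κ w) n t)) (Real.sqrt_nonneg _)
          rw [← sqY hκ] at h3
          exact h3
        have u2 : κ ^ 3 * U2 ≤ κ ^ n * E2 := by
          rw [hU2, hE2]
          rcases n with _ | k
          · simp
          · rw [if_neg (by omega), if_neg (by omega), Nat.add_sub_cancel]
            have b1 := hA (k + 1) t ht
            have b2 := hA0 (k + 1) t ht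
            have b3 := hw0 k t ht
            have hk : 0 < κ ^ k := pow_pos hκ k
            have hLk := hL k
            have e1 : |x k t| + w k t = κ ^ k * (|rs κ x k t| + rs κ w k t) := by
              rw [abs_rs hκ]
              unfold rs
              field_simp
            rw [e1]
            have b4 : 0 ≤ |rs κ x k t| := abs_nonneg _
            have b5 : 0 ≤ κ * Aq q x w (k + 1) t *
              (L k * κ ^ k * (|rs κ x k t| + rs κ w k t)) := by positivity
            calc κ ^ 3 * (L k * Aq q x w (k + 1) t * (κ ^ k * (|rs κ x k t| + rs κ w k t)))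
                = κ ^ 2 * (κ * Aq q x w (k + 1) t *
                  (L k * κ ^ k * (|rs κ x k t| + rs κ w k t))) := by ring
              _ ≤ κ * Aq q x w (k + 1) t * (L k * κ ^ k * (|rs κ x k t| + rs κ w k t)) :=
                  mul_le_of_le_one_left b5 hk2
              _ ≤ κ ^ (k + 1) * At μ (rs κ x) (rs κ w) (k + 1) t *
                  (L k * κ ^ k * (|rs κ x k t| + rs κ w k t)) :=
                  mul_le_mul_of_nonneg_right b1 (by positivity)
              _ = _ := by ring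
        have uu : κ ^ 3 * (U1 + U2) ≤ κ ^ n * (E1 + E2) := by
          rw [mul_add, mul_add]
          exact add_le_add u1 u2
        have key := absorb hκl hlam0.le (by positivity) uu
        have e2 : w n t = κ ^ n * rs κ w n t := hrs w n t
        have h3 : 2 * w n t * (N0 * (U1 + U2)) ≤
            2 * w n t * (N0 * (lam ^ 3 * (κ ^ n * (E1 + E2)))) :=
          mul_le_mul_of_nonneg_left (mul_le_mul_of_nonneg_left key (by linarith)) (by positivity)
        calc D ≤ -(2 * Sd κ μ L n * w n t ^ 2) + 2 * w n t * (N0 * (U1 + U2)) := h2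
          _ ≤ -(2 * Sd κ μ L n * w n t ^ 2) +
              2 * w n t * (N0 * (lam ^ 3 * (κ ^ n * (E1 + E2)))) := by linarith
          _ = _ := by
              rw [e2]
              unfold Sd
              ring
    · -- dY0
      intro t ht
      obtain ⟨D, h1, h2⟩ := hS.dY0 t ht
      refine ⟨D, ?_, h2⟩
      have e : Yk κ (rs κ x) (rs κ w) 0 = Yt x w 0 := by
        funext τ
        rw [hY0]
        simp
      rw [e]
      exact h1
    · -- dY
      intro n t ht
      obtain ⟨D, h1, h2⟩ := hS.dY n t ht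
      have hn : 0 < κ ^ n := pow_pos hκ n
      have hp : 0 < κ ^ (2 * (n + 1)) := pow_pos hκ _
      refine ⟨D / κ ^ (2 * (n + 1)), ?_, ?_⟩
      · have h3 := h1.div_const (κ ^ (2 * (n + 1)))
        have e : Yk κ (rs κ x) (rs κ w) (n + 1) =
            fun τ => Yt x w (n + 1) τ / κ ^ (2 * (n + 1)) := by
          funext τ
          exact hY0 _ _
        rw [e]
        exact h3
      · rw [div_le_iff₀ hp, Ut_eq hκ, Uw_eq hκ]
        rw [sqY hκ x w (n + 1) t] at h2
        have ey : Yt x w (n + 1) t = κ ^ (2 * (n + 1)) * Yk κ (rs κ x) (rs κ w) (n + 1) t := by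
          rw [hY0]
          field_simp
        rw [ey] at h2
        have y0 : 0 ≤ Yk κ (rs κ x) (rs κ w) (n + 1) t := by
          unfold Yk
          exact tsum_nonneg fun k => by positivity
        have s0 : 0 ≤ √(Yk κ (rs κ x) (rs κ w) (n + 1) t) := Real.sqrt_nonneg _
        set y := Yk κ (rs κ x) (rs κ w) (n + 1) t with hy
        set sY := √y with hsY
        have hLn := hL n
        have hLn1 := hL (n + 1)
        have he := Real.exp_pos μ
        -- first term
        have p1 : 2 * (C n * L n * x n t ^ 2 + N0 * loc L x w (n + 1) t) * (κ ^ (n + 1) * sY) ≤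
            2 * (C n / κ * (κ ^ n * L n) * rs κ x n t ^ 2 + N0 * lam ^ 3 *
              loc (fun n => κ ^ n * L n) (rs κ x) (rs κ w) (n + 1) t) * sY *
              κ ^ (2 * (n + 1)) := by
          have b1 := absorb hκl hlam0.le (hloc0 (n + 1) t ht) (hlocle (n + 1) t ht)
          have b2 : C n * L n * x n t ^ 2 * κ ^ (n + 1) =
              C n / κ * (κ ^ n * L n) * rs κ x n t ^ 2 * κ ^ (2 * (n + 1)) := by
            rw [hrs x n t]
            field_simp
            ring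
          have b3 : N0 * loc L x w (n + 1) t * (κ ^ (n + 1) * sY) ≤
              N0 * (lam ^ 3 * (κ ^ (n + 1) *
                loc (fun n => κ ^ n * L n) (rs κ x) (rs κ w) (n + 1) t)) *
                (κ ^ (n + 1) * sY) :=
            mul_le_mul_of_nonneg_right (mul_le_mul_of_nonneg_left b1 (by linarith))
              (by positivity)
          calc 2 * (C n * L n * x n t ^ 2 + N0 * loc L x w (n + 1) t) * (κ ^ (n + 1) * sY)
              = 2 * (C n * L n * x n t ^ 2 * κ ^ (n + 1)) * sY +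
                2 * (N0 * loc L x w (n + 1) t * (κ ^ (n + 1) * sY)) := by ring
            _ ≤ 2 * (C n * L n * x n t ^ 2 * κ ^ (n + 1)) * sY +
                2 * (N0 * (lam ^ 3 * (κ ^ (n + 1) *
                loc (fun n => κ ^ n * L n) (rs κ x) (rs κ w) (n + 1) t)) *
                (κ ^ (n + 1) * sY)) := by linarith
            _ = _ := by
                rw [b2]
                ring
        -- second term
        have hSd : Sd κ μ L (n + 1) = Real.exp μ * (κ ^ (n + 1) * L (n + 1)) := rfl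
        have p2 : 2 * (1001 / 1000 * Ut L x (n + 1) t + N0 * Uw L w (n + 1) t +
            N0 * (Ut L x (n + 1) t ^ 2 / Sd κ μ L (n + 1))) * (κ ^ (2 * (n + 1)) * y) ≤
            2 * (1001 / 1000 * Ut L x (n + 1) t + N0 * lam ^ 3 * Uw L w (n + 1) t +
            N0 * lam ^ 3 / Real.exp μ * (Ut L x (n + 1) t ^ 2 / (κ ^ (n + 1) * L (n + 1)))) * y *
            κ ^ (2 * (n + 1)) := by
          have c1 : N0 * Uw L w (n + 1) t ≤ N0 * lam ^ 3 * Uw L w (n + 1) t :=
            mul_le_mul_of_nonneg_right (le_mul_of_one_le_right (by linarith) hl3)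
              (hUw0 (n + 1) t ht)
          have c2 : N0 * (Ut L x (n + 1) t ^ 2 / Sd κ μ L (n + 1)) ≤
              N0 * lam ^ 3 / Real.exp μ * (Ut L x (n + 1) t ^ 2 / (κ ^ (n + 1) * L (n + 1))) := by
            rw [hSd]
            have e1 : N0 * (Ut L x (n + 1) t ^ 2 / (Real.exp μ * (κ ^ (n + 1) * L (n + 1)))) =
                N0 * (1 / Real.exp μ * (Ut L x (n + 1) t ^ 2 / (κ ^ (n + 1) * L (n + 1)))) := by
              field_simp
            have e2 : N0 * lam ^ 3 / Real.exp μ *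
                (Ut L x (n + 1) t ^ 2 / (κ ^ (n + 1) * L (n + 1))) = N0 * lam ^ 3 *
                (1 / Real.exp μ * (Ut L x (n + 1) t ^ 2 / (κ ^ (n + 1) * L (n + 1)))) := by
              field_simp
            rw [e1, e2]
            exact mul_le_mul_of_nonneg_right (le_mul_of_one_le_right (by linarith) hl3)
              (by positivity)
          have c3 : 0 ≤ κ ^ (2 * (n + 1)) * y := by positivity
          have c4 := mul_le_mul_of_nonneg_right (add_le_add (add_le_add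
            (le_refl (1001 / 1000 * Ut L x (n + 1) t)) c1) c2) c3
          linarith
        -- third term
        have p3 : N0 * (L n ^ 2 / Sd κ μ L (n + 1) *
            (Aq q x w (n + 1) t ^ 2 * (|x n t| + w n t) ^ 2)) ≤
            N0 * lam ^ 3 / Real.exp μ * (κ ^ n * L n * At μ (rs κ x) (rs κ w) (n + 1) t ^ 2 *
              (|rs κ x n t| + rs κ w n t) ^ 2) * κ ^ (2 * (n + 1)) := by
          have d1 : Aq q x w (n + 1) t ≤ κ ^ n * At μ (rs κ x) (rs κ w) (n + 1) t := by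
            have := hA (n + 1) t ht
            rw [pow_succ, mul_comm (κ ^ n) κ, mul_assoc] at this
            exact le_of_mul_le_mul_left this hκ
          have d2 : Aq q x w (n + 1) t ^ 2 ≤
              (κ ^ n * At μ (rs κ x) (rs κ w) (n + 1) t) ^ 2 :=
            pow_le_pow_left₀ (hA0 (n + 1) t ht) d1 2
          have e1 : |x n t| + w n t = κ ^ n * (|rs κ x n t| + rs κ w n t) := by
            rw [abs_rs hκ]
            unfold rs
            field_simp
          have hSd' : Sd κ μ L (n + 1) = Real.exp μ * (μ * (κ ^ n * L n)) := by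
            rw [hSd, hμσ]
          set v := (|rs κ x n t| + rs κ w n t) ^ 2 with hv
          have v0 : 0 ≤ v := sq_nonneg _
          rw [e1, hSd', mul_pow (κ ^ n)]
          have d3 : 1 ≤ μ ^ 2 * lam * μ := by
            have g1 : 1 ≤ μ ^ 2 := one_le_pow₀ hμ1
            exact one_le_mul_of_one_le_of_one_le
              (one_le_mul_of_one_le_of_one_le g1 hlam1) hμ1
          calc N0 * (L n ^ 2 / (Real.exp μ * (μ * (κ ^ n * L n))) *
                (Aq q x w (n + 1) t ^ 2 * ((κ ^ n) ^ 2 * v)))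
              ≤ N0 * (L n ^ 2 / (Real.exp μ * (μ * (κ ^ n * L n))) *
                ((κ ^ n * At μ (rs κ x) (rs κ w) (n + 1) t) ^ 2 * ((κ ^ n) ^ 2 * v))) := by
                refine mul_le_mul_of_nonneg_left ?_ (by linarith)
                refine mul_le_mul_of_nonneg_left ?_ (by positivity)
                exact mul_le_mul_of_nonneg_right d2 (by positivity)
            _ = 1 * (N0 / (Real.exp μ * μ) *
                (κ ^ n * L n * At μ (rs κ x) (rs κ w) (n + 1) t ^ 2 * v) * (κ ^ n) ^ 2) := by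
                field_simp
            _ ≤ (μ ^ 2 * lam * μ) * (N0 / (Real.exp μ * μ) *
                (κ ^ n * L n * At μ (rs κ x) (rs κ w) (n + 1) t ^ 2 * v) * (κ ^ n) ^ 2) := by
                refine mul_le_mul_of_nonneg_right d3 ?_
                have : 0 ≤ N0 := by linarith
                positivity
            _ = _ := by
                have e5 : κ ^ (2 * (n + 1)) = (κ ^ n) ^ 2 * κ ^ 2 := by ring
                rw [e5]
                have e6 : μ ^ 2 = κ ^ 2 * lam ^ 2 := by rw [h.μ_eq]; ring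
                rw [e6]
                field_simp
        calc D ≤ _ := h2
          _ ≤ _ := add_le_add (add_le_add p1 p2) p3
          _ = _ := by ring
    · -- bdd
      intro T' hT'
      obtain ⟨K, hK⟩ := hS.bdd 10 T' hT'
      refine ⟨K, fun t ht n => ?_⟩
      have ht' : t ∈ Ico 0 T := ⟨ht.1, lt_of_le_of_lt ht.2 hT'⟩
      have h1 := hK t ht n
      have h2 := hS.w0 n t ht'
      have hn : 0 < κ ^ n := pow_pos hκ n
      have hLn := hL n
      refine le_trans ?_ h1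
      rw [abs_rs hκ]
      unfold rs
      rw [← add_div]
      show (κ ^ n * L n) ^ 10 * ((|x n t| + w n t) / κ ^ n) ≤ _
      have e : (κ ^ n * L n) ^ 10 * ((|x n t| + w n t) / κ ^ n) =
          (κ ^ n) ^ 9 * (L n ^ 10 * (|x n t| + w n t)) := by
        field_simp
      rw [e]
      have h3 : (κ ^ n) ^ 9 ≤ 1 := pow_le_one₀ hn.le (pow_le_one₀ hκ.le hκ1)
      exact mul_le_of_le_one_left (by positivity) h3
    · -- en
      intro t ht
      rw [hY0]
      simpa using hS.en t ht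
    · show x 0 0 / κ ^ 0 = 1
      rw [hS.x0]; simp
    · intro n
      show x (n + 1) 0 / κ ^ (n + 1) = 0
      rw [hS.xs]; simp
    · intro n
      show w n 0 / κ ^ n = 0
      rw [hS.ws]; simp
    · -- growth
      intro hG n
      obtain ⟨t, ht, a, h1, h2, h3, h4, h5⟩ := hG n
      have hn : 0 < κ ^ n := pow_pos hκ n
      have ha : 0 ≤ a := le_trans (by positivity) h1
      have hpw : ∀ i ≤ n, κ ^ i * (1000 / 9) ^ (n - i) = (1000 / (9 * κ)) ^ (n - i) * κ ^ n := by
        intro i hi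
        obtain ⟨k, rfl⟩ : ∃ k, n = i + k := ⟨n - i, by omega⟩
        rw [Nat.add_sub_cancel_left, ← div_div, div_pow (1000 / 9) κ k, pow_add]
        field_simp
      refine ⟨t, ht, κ ^ n * a, ?_, ?_, ?_, ?_, ?_⟩
      · rw [mul_pow, mul_comm]
        exact mul_le_mul_of_nonneg_left h1 hn.le
      · rw [hrs x n t]
        have := mul_le_mul_of_nonneg_left h2 hn.le
        linarith
      · intro i hi
        have h6 := h3 i hi
        rw [abs_rs hκ, div_le_iff₀ (pow_pos hκ i)] at h6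
        calc |x i t| ≤ 200 * (1000 / 9) ^ (n - i) * a * κ ^ i := h6
          _ = 200 * a * (κ ^ i * (1000 / 9) ^ (n - i)) := by ring
          _ = _ := by rw [hpw i hi.le]; ring
      · intro i hi
        have h6 := h4 i hi
        have h7 := mul_le_mul_of_nonneg_left h6 (pow_pos hκ i).le
        rw [← hrs w i t] at h7
        calc w i t ≤ κ ^ i * (Real.exp (-(μ / 10)) * (1000 / 9) ^ (n - i) * a) := h7
          _ = Real.exp (-(μ / 10)) * a * (κ ^ i * (1000 / 9) ^ (n - i)) := by ring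
          _ = _ := by rw [hpw i hi]; ring
      · intro k
        rw [sqY hκ]
        have h6 := h5 k
        have h7 : κ ^ (n + 1 + k) ≤ κ ^ n := pow_le_pow_of_le_one hκ.le hκ1 (by omega)
        calc κ ^ (n + 1 + k) * √(Yk κ (rs κ x) (rs κ w) (n + 1 + k) t) ≤
            κ ^ n * (Real.exp (-(μ / 100 * (k + 1))) * a) :=
              mul_le_mul h7 h6 (Real.sqrt_nonneg _) hn.le
          _ = _ := by ring

end Pool.Agent.Y108.NS
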